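import Mathlib
import Pool.Agent.Lib.MP_b7b920_al_h19.Deriv

set_option autoImplicit false

/-!
# MP_b7b920_al : definitions for the crystallographic theorem CT (interface, helper6)
-/

namespace Pool.MP_b7b920_al.CT

open Module Pool.MP_b7b920_al.H19

/-- the copy of `q • L` inside `Γ` -/
def mulSet {Γ L : Type} [Group Γ] [AddCommGroup L] (ι : Multiplicative L →* Γ) (q : ℕ) : Set Γ :=
  Set.range (fun v : L => ι (Multiplicative.ofAdd (q • v)))

/-- the copy of `q • L` inside `Γ`, as a subgroup -/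
def mulSub {Γ L : Type} [Group Γ] [AddCommGroup L] (ι : Multiplicative L →* Γ) (q : ℕ) :
    Subgroup Γ := (ι.comp (powMonoidHom q)).range

theorem coe_mulSub {Γ L : Type} [Group Γ] [AddCommGroup L] (ι : Multiplicative L →* Γ) (q : ℕ) :
    (mulSub ι q : Set Γ) = mulSet ι q := rfl

/-- `Γ` is an irreducible crystallographic group with translation lattice `ι : L → Γ`. -/
structure Cryst (Γ L : Type) [Group Γ] [AddCommGroup L] [DistribMulAction Γ L]
    (ι : Multiplicative L →* Γ) : Prop where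
  inj : Function.Injective ι
  conj : ∀ (g : Γ) (v : L),
    g * ι (Multiplicative.ofAdd v) * g⁻¹ = ι (Multiplicative.ofAdd (g • v))
  fin : ι.range.FiniteIndex
  self : ∀ g : Γ, (∀ v : L, g • v = v) → g ∈ ι.range
  irr : ∀ U : AddSubgroup L, (∀ (g : Γ), ∀ u ∈ U, g • u ∈ U) → U ≠ ⊥ → U.FiniteIndex

/-- derivations `Γ → M` vanishing on the set `S` -/
def DerSet (Γ M : Type) [Group Γ] [AddCommGroup M] [DistribMulAction Γ M] (S : Set Γ) :
    Set (Γ → M) :=
  {d | IsDer d ∧ ∀ g ∈ S, d g = 0}

/-- `M` is a simple `Γ`-module (an abelian group with action, no proper invariant subgroups) -/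
def Simple (Γ M : Type) [Group Γ] [AddCommGroup M] [DistribMulAction Γ M] : Prop :=
  Nontrivial M ∧ ∀ U : AddSubgroup M, (∀ (g : Γ), ∀ u ∈ U, g • u ∈ U) → U = ⊥ ∨ U = ⊤

/-- Consequence of Lemma D (consumer form): finite `l`-subgroups of the point group have few
homomorphisms to `Z/l`.  `X` is any subgroup of `Γ` containing the lattice with `X / L` an
`l`-group. -/
def LDHyp (Γ L : Type) [Group Γ] [AddCommGroup L] (ι : Multiplicative L →* Γ) : Prop :=
  ∀ (l : ℕ) (_ : l.Prime) (X : Subgroup Γ), ι.range ≤ X → (∃ k, ι.range.relIndex X = l ^ k) →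
    Finite {f : X →* Multiplicative (ZMod l) // ∀ e : X, (e : Γ) ∈ ι.range → f e = 1} ∧
    Nat.card {f : X →* Multiplicative (ZMod l) // ∀ e : X, (e : Γ) ∈ ι.range → f e = 1}
      ^ (l - 1) ≤ l ^ finrank ℤ L

namespace Cryst

variable {Γ L : Type} [Group Γ] [AddCommGroup L] [DistribMulAction Γ L]
  {ι : Multiplicative L →* Γ}

theorem smul_iota (hC : Cryst Γ L ι) (v w : L) : ι (Multiplicative.ofAdd v) • w = w := by
  have h := hC.conj (ι (Multiplicative.ofAdd v)) w
  rw [← map_mul, ← map_inv, ← map_mul] at h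
  have h2 := hC.inj h
  have h3 : Multiplicative.ofAdd v * Multiplicative.ofAdd w * (Multiplicative.ofAdd v)⁻¹ =
      Multiplicative.ofAdd w := by
    rw [mul_comm (Multiplicative.ofAdd v), mul_inv_cancel_right]
  rw [h3] at h2
  exact (Multiplicative.ofAdd.injective h2).symm

theorem normal_range (hC : Cryst Γ L ι) : ι.range.Normal := by
  constructor
  rintro _ ⟨v, rfl⟩ g
  exact ⟨Multiplicative.ofAdd (g • v.toAdd), (hC.conj g v.toAdd).symm⟩

theorem normal_mulSub (hC : Cryst Γ L ι) (q : ℕ) : (mulSub ι q).Normal := by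
  constructor
  rintro _ ⟨v, rfl⟩ g
  refine ⟨Multiplicative.ofAdd (g • v.toAdd), ?_⟩
  have h := hC.conj g (q • v.toAdd)
  have e : g • (q • v.toAdd) = q • (g • v.toAdd) :=
    map_nsmul (DistribSMul.toAddMonoidHom L g) q v.toAdd
  rw [e] at h
  exact h.symm

theorem relIndex_mulSub [Module.Free ℤ L] [Module.Finite ℤ L] (hC : Cryst Γ L ι) (p : ℕ)
    (hp : p ≠ 0) : (mulSub ι p).relIndex ι.range ≠ 0 := by
  have h1 : mulSub ι p = (powMonoidHom (α := Multiplicative L) p).range.map ι := by
    rw [mulSub, MonoidHom.range_comp]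
  have h2 : ι.range = (⊤ : Subgroup (Multiplicative L)).map ι := by
    rw [MonoidHom.range_eq_map]
  rw [h1, h2, Subgroup.relIndex_map_map_of_injective _ _ hC.inj, Subgroup.relIndex_top_right]
  have h3 : (nsmulAddMonoidHom (α := L) p).range.index ≠ 0 := by
    have := AddSubgroup.index_range_nsmul (M := L) p
    rw [this]
    exact pow_ne_zero _ hp
  exact h3

end Cryst

end Pool.MP_b7b920_al.CT
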