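import Pool.Agent.Lib.MP_b7b920_al_CT.Defs
import Pool.Agent.Lib.MP_b7b920_al_h55.GenBy
import Pool.Agent.Lib.MP_b7b920_al_h55.RGLConv
import Pool.Agent.Lib.MP_b7b920_al_h6.Step2
import Pool.Agent.Lib.MP_b7b920_al_h6.LDConv
import Pool.Agent.Lib.MP_b7b920_al_h80.Step4
import Pool.Agent.Lib.MP_b7b920_al_h79.Step5
import Pool.Agent.Lib.MP_b7b920_al_h79.One
import Pool.Agent.Lib.MP_b7b920_al_h79.Choice
import Pool.Agent.Lib.MP_b7b920_al_h19.ModBound

set_option autoImplicit false

/-!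
# MP_b7b920_al : the crystallographic theorem CT (assembly, helper6)
-/

namespace Pool.MP_b7b920_al.CT

open Module Pool.MP_b7b920_al.H19

section
variable {Γ L : Type} [Group Γ] [Group.IsSolvable Γ] [AddCommGroup L] [Module.Free ℤ L]
  [Module.Finite ℤ L] [DistribMulAction Γ L] (ι : Multiplicative L →* Γ)

/-- The crystallographic theorem, modulo Lemma D. -/
theorem main_of_LD (hLD : LDLattice) (hC : Cryst Γ L ι) (hs : 1 ≤ finrank ℤ L) : GenBy (finrank ℤ L) Γ := by
  rcases Nat.lt_or_ge 1 (finrank ℤ L) with h2 | h2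
  swap
  · have h1 : finrank ℤ L = 1 := le_antisymm h2 hs
    rw [h1]
    exact ct_one ι hC h1
  have hs2 : 2 ≤ finrank ℤ L := h2
  obtain ⟨p, hp, A, X, hA, hTA, hAX, hAp, hXp, hXi⟩ := exists_pA ι hC hs2
  have : Fact p.Prime := ⟨hp⟩
  have hTX : ι.range ≤ X := hTA.le.trans hAX
  obtain ⟨E, hEf, hEX, hE2, hfin, hcount⟩ := step2_core ι hC p X hTX hXp A hTA hAX
    (fun h2 => exists_torsion ι hC h2 A hTA)
  have hn1 := hC.normal_range
  have hn2 := hC.normal_mulSub p
  have hf1 := hC.fin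
  -- `mulSub ι p ≤ ι.range`
  have hle : mulSub ι p ≤ ι.range := by
    rintro _ ⟨v, rfl⟩
    exact ⟨v ^ p, rfl⟩
  have hcount3 : ∀ (M : Type) [AddCommGroup M] [Finite M] [DistribMulAction Γ M], Simple Γ M →
      (∀ (v : L) (m : M), ι (Multiplicative.ofAdd v) • m = m) →
      Finite (DerSet Γ M ((E : Set Γ) ∪ mulSet ι p)) ∧
      Nat.card (DerSet Γ M ((E : Set Γ) ∪ mulSet ι p)) ≤ Nat.card M ^ finrank ℤ L := by
    intro M _ _ _ hM hT
    exact step3_count ι hC (ldHyp_of_lattice ι hLD hC) p X hTX hXp hXi hs2 E hEX hfin hcount M hM hT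
  -- first application: generate modulo the lattice
  obtain ⟨x, hx, hx'⟩ := RGL E ι.range ⊤ le_top hC.fin.index_ne_zero (finrank ℤ L)
    (fun _ => 1) (by simp) (by
      intro M _ _ _ hM hN0 _
      have h := hcount3 M hM (fun v m => hN0 _ ⟨_, rfl⟩ m)
      have hsub : DerSet Γ M ((E : Set Γ) ∪ (ι.range : Set Γ)) ⊆
          DerSet Γ M ((E : Set Γ) ∪ mulSet ι p) := by
        rintro d ⟨hd, hd'⟩
        refine ⟨hd, fun g hg => hd' g ?_⟩
        rcases hg with hg | hg
        · exact Or.inl hg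
        · exact Or.inr (hle hg)
      have hf := h.1
      exact ⟨Finite.Set.subset _ hsub, (Nat.card_mono h.1 hsub).trans h.2⟩)
  simp only [one_mul] at hx'
  -- second application: generate modulo `p • lattice`
  have hidx : (mulSub ι p).index ≠ 0 := by
    rw [← Subgroup.relIndex_mul_index hle]
    exact mul_ne_zero (hC.relIndex_mulSub p hp.ne_zero) hC.fin.index_ne_zero
  obtain ⟨n, hn, hn'⟩ := RGL E (mulSub ι p) ι.range hle hidx (finrank ℤ L) x hx' (by
      rintro M _ _ _ hM - ⟨N1, -, -, hN1, φ, hφ, -, hφ3⟩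
      have hT : ∀ (v : L) (m : M), ι (Multiplicative.ofAdd v) • m = m := by
        intro v m
        obtain ⟨n, hn⟩ := hφ (Multiplicative.ofAdd m)
        obtain ⟨w, hw⟩ := hN1 n.2
        have hcomm : ι (Multiplicative.ofAdd v) * n * (ι (Multiplicative.ofAdd v))⁻¹ = (n : Γ) := by
          rw [← hw, ← map_mul, ← map_inv, ← map_mul, mul_comm (Multiplicative.ofAdd v),
            mul_inv_cancel_right]
        have := hφ3 (ι (Multiplicative.ofAdd v)) n (by rw [hcomm]; exact n.2)
        have e : (⟨ι (Multiplicative.ofAdd v) * n * (ι (Multiplicative.ofAdd v))⁻¹,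
            by rw [hcomm]; exact n.2⟩ : N1) = n := Subtype.ext hcomm
        rw [e, hn] at this
        exact (Multiplicative.ofAdd.injective this).symm
      exact hcount3 M hM hT)
  rw [coe_mulSub] at hn'
  obtain ⟨t, ht⟩ := step5 ι hC hs2 p hp E hE2 (fun i => x i * n i) hn' (by
    intro q hq hqp
    refine step4 ι hC hs2 p hp A hTA hAp q hq hqp E (fun i => x i * n i) ?_
    rw [eq_top_iff, ← hn']
    apply Subgroup.closure_mono
    apply Set.union_subset_union_right
    exact hle)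
  exact ⟨E, hEf, _, ht⟩

end

end Pool.MP_b7b920_al.CT
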